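import Pool.Agent.H43.QO.TargetsA
import Pool.Agent.H78.KX.PAD
import Pool.Agent.H36.UV.PADU

/-!
# MP_c62aed_lc: row PADO, padding of the clauses, constraints chosen after the formula
-/

set_option autoImplicit false

namespace Pool.Agent.H58.QO

open Finset Matrix Pool.Agent.H43.QO
open Pool.Agent.H1.LP (Clause viol)
open Pool.Agent.H78.KX (ext ext_sat ext_card ext_card' sum_pad viol_pad pad pe)
open Pool.Agent.H36.UV (padu_exp)

/-- the literals of a clause on the first variables -/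
def cut {n r : ℕ} (D : Clause (n + r)) : Clause n :=
  univ.filter (fun l : Fin n × Bool => (Fin.castAdd r l.1, l.2) ∈ D)

theorem cut_ext {n r : ℕ} (C : Clause n) (s : Fin r → Bool) : cut (Pool.Agent.H78.KX.ext C s) = C := by
  refine Finset.ext fun l => ?_
  unfold cut Pool.Agent.H78.KX.ext
  rw [mem_filter, mem_union, mem_image, mem_image]
  constructor
  · rintro ⟨-, ⟨l', hl', h⟩ | ⟨t, -, h⟩⟩
    · have h1 := congrArg Prod.fst h
      have h2 := congrArg Prod.snd h
      simp only [Fin.castAdd_inj] at h1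
      have h3 : l' = l := Prod.ext h1 h2
      rw [← h3]; exact hl'
    · have h1 := congrArg (fun q => (Prod.fst q).val) h
      simp only [Fin.val_natAdd, Fin.val_castAdd] at h1
      omega
  · intro hl
    exact ⟨mem_univ _, Or.inl ⟨l, hl, rfl⟩⟩

theorem cut_sat {n r : ℕ} (D : Clause (n + r)) (x : Fin n → Bool) (h : (cut D).Sat x) :
    D.Sat (Fin.append x (fun _ : Fin r => false)) := by
  obtain ⟨l, hl, hx⟩ := h
  unfold cut at hl
  rw [mem_filter] at hl
  exact ⟨_, hl.2, by simpa using hx⟩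

/-- the restriction of a pool -/
noncomputable def restO {n r : ℕ} (P : Pool (n + r)) : Pool n where
  cell := univ.filter (fun x => Fin.append x (fun _ : Fin r => false) ∈ P.cell)
  dim := P.dim
  pt := fun x => P.pt (Fin.append x (fun _ => false))
  nb := P.nb
  ord := P.ord
  B0 := P.B0
  B := P.B
  nc := P.nc
  cl := fun t => cut (P.cl t)
  w := P.w
  w0 := P.w0
  symm0 := P.symm0
  symm := P.symm
  feas := fun _ hx i => P.feas _ (mem_filter.1 hx).2 i
  bdd := fun _ hx t => P.bdd _ (mem_filter.1 hx).2 t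
  sound := fun x hx t ht => P.sound _ (mem_filter.1 hx).2 t (cut_sat _ x ht)

theorem refutedBy_pad {n r m M : ℕ} (P : Fin M → Pool (n + r)) (phi : Fin m → Clause n)
    (de de' S S' : ℝ) (hd : de' ≤ de) (hS : S ≤ S')
    (h : RefutedBy P (pad r phi) de S) :
    RefutedBy (fun j => restO (P j)) phi de' S' := by
  obtain ⟨J, I, T, h1, h2, h3, hs⟩ := h
  refine ⟨J, I, T, ?_, ?_, ?_, ?_⟩
  · intro j hj j' hj' hne
    have := h1 j hj j' hj' hne
    rw [Finset.disjoint_left] at this ⊢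
    intro x hx hx'
    exact this (mem_filter.1 hx).2 (mem_filter.1 hx').2
  · intro x
    obtain ⟨j, hj, hx⟩ := h2 (Fin.append x (fun _ => false))
    exact ⟨j, hj, mem_filter.2 ⟨mem_univ _, hx⟩⟩
  · intro j hj
    obtain ⟨h4, h5⟩ := h3 j hj
    refine ⟨fun t ht => ?_, fun y hy => ?_⟩
    · obtain ⟨i, hi⟩ := h4 t ht
      refine ⟨(pe m r i).1, ?_⟩
      change phi (pe m r i).1 = cut ((P j).cl t)
      rw [← hi]
      exact (cut_ext _ _).symm
    · obtain ⟨t, ht, hl⟩ := h5 y hy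
      exact ⟨t, ht, hd.trans hl⟩
  · exact hs.trans hS

theorem pf_PADO : S_PADO := by
  classical
  intro w k ε c c' C C' hwk hcc hCC hH
  obtain ⟨r, rfl⟩ := Nat.exists_eq_add_of_le hwk
  obtain ⟨K, γ, hγ, n₀, hn₀⟩ := hH
  obtain ⟨N1, hN1⟩ := exists_nat_ge (c * r / (c - c'))
  obtain ⟨N3, hN3⟩ := exists_nat_ge (C * r / (C - C'))
  obtain ⟨N2, hN2⟩ := exists_nat_ge ((γ + 1) * r / (γ / 2))
  refine ⟨K * 2 ^ r, γ / 2, by positivity, n₀ + r + N1 + N2 + N3, ?_⟩
  intro n hn
  obtain ⟨n1, rfl⟩ : ∃ n1, n = n1 + r := ⟨n - r, by omega⟩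
  obtain ⟨Y, m, phi, hY, hphi, hmain⟩ := hn₀ n1 (by omega)
  have hA := padu_exp c c' r n1 N1 (sub_pos.2 hcc) hN1 (by omega)
  have hA' := padu_exp C C' r n1 N3 (sub_pos.2 hCC) hN3 (by omega)
  have hB : (γ + 1) * r ≤ ((n1 + r : ℕ) : ℝ) * (γ / 2) := by
    have h1 : (N2 : ℝ) ≤ ((n1 + r : ℕ) : ℝ) := by exact_mod_cast (by omega : N2 ≤ n1 + r)
    exact (div_le_iff₀ (by positivity)).1 (hN2.trans h1)
  have hD : (2 : ℝ) ^ (-(γ * n1)) ≤ (2 : ℝ) ^ (-(γ / 2 * ((n1 + r : ℕ) : ℝ))) := by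
    refine Real.rpow_le_rpow_of_exponent_le (by norm_num) ?_
    have h3 : ((n1 + r : ℕ) : ℝ) = n1 + r := by push_cast; ring
    have h4 : (0 : ℝ) ≤ r := Nat.cast_nonneg r
    rw [h3] at hB ⊢
    nlinarith
  refine ⟨Y, fun a => m a * 2 ^ r, fun a => pad r (phi a), hY, ?_, ?_⟩
  · intro a
    obtain ⟨h1, h2, h3, h4⟩ := hphi a
    refine ⟨Nat.mul_pos h1 (by positivity), ?_, ?_, ?_⟩
    · calc m a * 2 ^ r ≤ K * n1 * 2 ^ r := Nat.mul_le_mul_right _ h2
        _ = K * 2 ^ r * n1 := by ring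
        _ ≤ K * 2 ^ r * (n1 + r) := Nat.mul_le_mul_left _ (by omega)
    · intro i
      unfold pad
      exact ⟨by rw [ext_card, (h3 _).1], by rw [ext_card', (h3 _).2]⟩
    · intro x
      rw [viol_pad]
      refine le_trans (le_of_eq ?_) (h4 _)
      have h5 : (((m a * 2 ^ r : ℕ) : ℝ)) = m a * 2 ^ r := by push_cast; ring
      rw [h5, pow_add]
      field_simp
  · intro M P hP
    have h1 := hmain M (fun j => restO (P j)) ?_
    · refine le_trans ?_ (h1.trans (mul_le_mul_of_nonneg_right hD (by positivity)))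
      norm_cast
      refine Finset.card_le_card fun a ha => ?_
      rw [mem_filter] at ha ⊢
      exact ⟨ha.1, refutedBy_pad P (phi a) _ _ _ _ hD
        (Real.rpow_le_rpow_of_exponent_le (by norm_num) hA) ha.2⟩
    · refine le_trans (le_of_eq ?_)
        (hP.trans (Real.rpow_le_rpow_of_exponent_le (by norm_num) hA'))
      rfl

end Pool.Agent.H58.QO
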