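import Pool.Agent.H43.QO.TargetsA

/-!
# MP_c62aed_lc: row ODUAL, duality for the chosen constraints
-/

set_option autoImplicit false

namespace Pool.Agent.H58.QO

open Finset Matrix Pool.Agent.H43.QO
open Pool.Agent.H1.LP (Clause viol)
open Pool.Agent.H91.UV (URelax)

/-- the mean of the losses -/
theorem mean_loss {n : ℕ} (P : Pool n) (mu : Fin P.nc → ℝ) (y : Fin P.dim → ℝ) :
    ∑ k, (∑ t, mu t * P.w t k) * y k + ∑ t, mu t * P.w0 t = ∑ t, mu t * P.loss t y := by
  unfold Pool.loss
  simp_rw [mul_add, Finset.sum_add_distrib, Finset.mul_sum, Finset.sum_mul]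
  rw [Finset.sum_comm]
  congr 1
  refine Finset.sum_congr rfl fun t _ => Finset.sum_congr rfl fun k _ => ?_
  ring

theorem mean_bdd {n : ℕ} (P : Pool n) (mu : Fin P.nc → ℝ) (h0 : ∀ t, 0 ≤ mu t)
    (h1 : ∑ t, mu t = 1) (x : Fin n → Bool) (hx : x ∈ P.cell) :
    |∑ t, mu t * P.loss t (P.pt x)| ≤ 1 := by
  refine (Finset.abs_sum_le_sum_abs _ _).trans ?_
  rw [← h1]
  refine Finset.sum_le_sum fun t _ => ?_
  rw [abs_mul, abs_of_nonneg (h0 t)]
  exact mul_le_of_le_one_right (h0 t) (P.bdd x hx t)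

open Classical in
/-- the auxiliary relaxation -/
noncomputable def aux {n : ℕ} (P : Pool n) (I : Finset (Fin P.nb)) (mu : Fin P.nc → ℝ)
    (h0 : ∀ t, 0 ≤ mu t) (h1 : ∑ t, mu t = 1) : URelax n where
  cell := P.cell
  dim := P.dim
  nb := I.card
  ord := fun j => P.ord (I.equivFin.symm j : Fin P.nb)
  B0 := fun j => P.B0 (I.equivFin.symm j : Fin P.nb)
  B := fun j => P.B (I.equivFin.symm j : Fin P.nb)
  pt := P.pt
  w := fun C k => if C = ∅ then ∑ t, mu t * P.w t k else 0
  w0 := fun C => if C = ∅ then ∑ t, mu t * P.w0 t else 0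
  symm0 := fun j => P.symm0 _
  symm := fun j k => P.symm _ k
  feas := fun x hx j => P.feas x hx _
  bdd := by
    intro x hx C
    by_cases hC : C = ∅
    · simp only [hC, if_true]
      rw [mean_loss]
      exact mean_bdd P mu h0 h1 x hx
    · simp [hC]
  sound := by
    intro x _ C hC
    have hne : C ≠ ∅ := by
      rintro rfl
      obtain ⟨l, hl, -⟩ := hC
      exact absurd hl (Finset.notMem_empty _)
    simp [hne]

theorem pf_ODUAL (HB : S_HB) (UDUAL : Pool.Agent.H91.UV.S_UDUAL) : S_ODUAL := by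
  classical
  intro n P I T de hne hinf η hη
  obtain ⟨mu, h0, hT, h1, hmu⟩ := HB n P I T de hne hinf
  set Q : URelax n := aux P I mu h0 h1 with hQ
  have hloss : ∀ y : Fin P.dim → ℝ, Q.loss (∅ : Clause n) y = ∑ t, mu t * P.loss t y := by
    intro y
    rw [← mean_loss]
    change ∑ k, (if (∅ : Clause n) = ∅ then ∑ t, mu t * P.w t k else 0) * y k +
      (if (∅ : Clause n) = ∅ then ∑ t, mu t * P.w0 t else 0) = _
    simp only [if_true]
  have href : Q.Refutes (fun _ : Fin 1 => (∅ : Clause n)) de := by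
    intro y hy
    rw [Fin.sum_univ_one, hloss]
    refine hmu y fun i hi => ?_
    have h2 := hy (I.equivFin ⟨i, hi⟩)
    change (P.B0 (I.equivFin.symm (I.equivFin ⟨i, hi⟩) : Fin P.nb) +
      ∑ k, y k • P.B (I.equivFin.symm (I.equivFin ⟨i, hi⟩) : Fin P.nb) k).PosSemidef at h2
    rw [Equiv.symm_apply_apply] at h2
    exact h2
  obtain ⟨L', lam0, hL', hlam, hmain⟩ := UDUAL n 1 Q (fun _ => ∅) de hne href η hη
  let g : Fin I.card → Fin P.nb := fun j => (I.equivFin.symm j : Fin P.nb)
  have hgI : ∀ j, g j ∈ I := fun j => (I.equivFin.symm j).2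
  let L0 : (j : Fin I.card) → Matrix (Fin (P.ord (g j))) (Fin (P.ord (g j))) ℝ := L'
  have hL0 : ∀ j, (L0 j).PosSemidef := hL'
  let L : (i : Fin P.nb) → Matrix (Fin (P.ord i)) (Fin (P.ord i)) ℝ := fun i =>
    ∑ j, if h : g j = i then h ▸ L0 j else 0
  refine ⟨mu, L, lam0, h0, hT, h1, ?_, ?_, hlam, ?_⟩
  · intro i
    refine Matrix.posSemidef_sum _ fun j _ => ?_
    by_cases h : g j = i
    · rw [dif_pos h]
      subst h
      exact hL0 j
    · rw [dif_neg h]
      exact Matrix.PosSemidef.zero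
  · intro i hi
    refine Finset.sum_eq_zero fun j _ => ?_
    rw [dif_neg]
    rintro rfl
    exact hi (hgI j)
  · intro x hx
    have hM := hmain x hx
    rw [Fin.sum_univ_one] at hM
    have hl : Q.loss (∅ : Clause n) (Q.pt x) = ∑ t, mu t * P.loss t (P.pt x) := hloss _
    rw [hl] at hM
    have htr : ∑ i, (L i * (P.B0 i + ∑ k, P.pt x k • P.B i k)).trace =
        ∑ j, (L0 j * (P.B0 (g j) + ∑ k, P.pt x k • P.B (g j) k)).trace := by
      have h2 : ∀ i, (L i * (P.B0 i + ∑ k, P.pt x k • P.B i k)).trace =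
          ∑ j, ((if h : g j = i then h ▸ L0 j else 0) *
            (P.B0 i + ∑ k, P.pt x k • P.B i k)).trace := by
        intro i
        change ((∑ j, if h : g j = i then h ▸ L0 j else 0) *
          (P.B0 i + ∑ k, P.pt x k • P.B i k)).trace = _
        rw [Finset.sum_mul, Matrix.trace_sum]
      simp_rw [h2]
      rw [Finset.sum_comm]
      refine Finset.sum_congr rfl fun j _ => ?_
      rw [Finset.sum_eq_single (g j)]
      · rw [dif_pos rfl]
      · intro i _ hi
        rw [dif_neg (Ne.symm hi), Matrix.zero_mul, Matrix.trace_zero]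
      · intro h
        exact absurd (Finset.mem_univ _) h
    rw [htr]
    exact hM

end Pool.Agent.H58.QO
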